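import Pool.Agent.Helper35.MS.StH

/-!
Project MS (MP_925021_gt), module CT0: frozen families and continuity up to the initial time.
-/

set_option autoImplicit false

namespace Helper78.MS

open Helper35.MS Helper35.PI Helper35.PI2 Helper32.CL
open scoped ContDiff Manifold Topology
open MeasureTheory Set Filter

section Loc

variable {n N : ℕ} {V : Type} [NormedAddCommGroup V] [NormedSpace ℝ V]

lemma slice_fderiv {T : Set (EE n)} (hT : IsOpen T) {I : Set ℝ} {g : EE n × ℝ → V}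
    (hg : ContDiffOn ℝ ∞ g (T ×ˢ I)) {y : EE n} {s : ℝ} (hy : y ∈ T) (hs : s ∈ I) (v : EE n) :
    fderiv ℝ (fun y' => g (y', s)) y v = fderivWithin ℝ g (T ×ˢ I) (y, s) (v, 0) := by
  have hd : DifferentiableWithinAt ℝ g (T ×ˢ I) (y, s) :=
    (hg.differentiableOn (by simp)) (y, s) ⟨hy, hs⟩
  have h1 : HasFDerivWithinAt g (fderivWithin ℝ g (T ×ˢ I) (y, s)) (T ×ˢ I) (y, s) :=
    hd.hasFDerivWithinAt
  have h2 : HasFDerivWithinAt (fun y' : EE n => (y', s))
      (ContinuousLinearMap.inl ℝ (EE n) ℝ) T y := by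
    have h3 : HasFDerivAt (fun y' : EE n => (y', s))
        ((ContinuousLinearMap.id ℝ (EE n)).prod (0 : EE n →L[ℝ] ℝ)) y :=
      (hasFDerivAt_id y).prodMk (hasFDerivAt_const s y)
    exact h3.hasFDerivWithinAt
  have hm : MapsTo (fun y' : EE n => (y', s)) T (T ×ˢ I) := fun y' hy' => ⟨hy', hs⟩
  have h4 : HasFDerivWithinAt (fun y' : EE n => g (y', s))
      ((fderivWithin ℝ g (T ×ˢ I) (y, s)).comp (ContinuousLinearMap.inl ℝ (EE n) ℝ)) T y :=
    h1.comp y h2 hm
  have h5 := h4.hasFDerivAt (hT.mem_nhds hy)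
  rw [h5.fderiv]
  rfl

lemma within_smooth {S : Set (EE n × ℝ)} (hS : UniqueDiffOn ℝ S) {g : EE n × ℝ → V}
    (hg : ContDiffOn ℝ ∞ g S) (v : EE n × ℝ) :
    ContDiffOn ℝ ∞ (fun z => fderivWithin ℝ g S z v) S := by
  have h1 : ContDiffOn ℝ ∞ (fderivWithin ℝ g S) S := hg.fderivWithin hS (by simp)
  exact h1.clm_apply contDiffOn_const

end Loc

section Mat

variable {n N : ℕ} {X : Type} [TopologicalSpace X]

lemma cont_inv {G : X → Matrix (Fin n) (Fin n) ℝ} (hG : Continuous G)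
    (hd : ∀ x, (G x).det ≠ 0) : Continuous (fun x => (G x)⁻¹) := by
  have h1 : (fun x => (G x)⁻¹) = fun x => ((G x).det)⁻¹ • (G x).adjugate := by
    funext x
    rw [Matrix.inv_def, Ring.inverse_eq_inv']
  rw [h1]
  exact (hG.matrix_det.inv₀ hd).smul hG.matrix_adjugate

lemma cont_geo (f : X → EE n → EE N) (p : X → EE n)
    (h1 : ∀ i, Continuous (fun x => dv1 (f x) (p x) i))
    (h2 : ∀ i j, Continuous (fun x => dv2 (f x) (p x) i j))
    (hd : ∀ x, (gram (f x) (p x)).det ≠ 0) :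
    Continuous (fun x => mcv (f x) (p x)) ∧ Continuous (fun x => nsq (f x) (p x)) ∧
    Continuous (fun x => zsq (f x) (p x)) := by
  have hG : Continuous (fun x => gram (f x) (p x)) := by
    apply continuous_matrix
    intro i j
    exact (h1 i).inner (h1 j)
  have hI := cont_inv hG hd
  have hI' : ∀ i j, Continuous (fun x => (gram (f x) (p x))⁻¹ i j) := fun i j =>
    hI.matrix_elem i j
  have hA : ∀ i j, Continuous (fun x => sff (f x) (p x) i j) := by
    intro i j
    have : Continuous (fun x => dv2 (f x) (p x) i j -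
        ∑ k, ∑ l, ((gram (f x) (p x))⁻¹ k l * inner ℝ (dv2 (f x) (p x) i j) (dv1 (f x) (p x) k)) •
          dv1 (f x) (p x) l) := by
      refine (h2 i j).sub (continuous_finsetSum _ fun k _ => continuous_finsetSum _ fun l _ => ?_)
      exact ((hI' k l).mul ((h2 i j).inner (h1 k))).smul (h1 l)
    exact this
  have hH : Continuous (fun x => mcv (f x) (p x)) := by
    have : Continuous (fun x => ∑ i, ∑ j, (gram (f x) (p x))⁻¹ i j • sff (f x) (p x) i j) :=
      continuous_finsetSum _ fun i _ => continuous_finsetSum _ fun j _ => (hI' i j).smul (hA i j)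
    exact this
  refine ⟨hH, ?_, ?_⟩
  · have : Continuous (fun x => ∑ i, ∑ j, ∑ k, ∑ l,
        (gram (f x) (p x))⁻¹ i k * (gram (f x) (p x))⁻¹ j l *
          inner ℝ (sff (f x) (p x) i j) (sff (f x) (p x) k l)) :=
      continuous_finsetSum _ fun i _ => continuous_finsetSum _ fun j _ =>
        continuous_finsetSum _ fun k _ => continuous_finsetSum _ fun l _ =>
          ((hI' i k).mul (hI' j l)).mul ((hA i j).inner (hA k l))
    exact this
  · have : Continuous (fun x => ∑ i, ∑ j, ∑ k, ∑ l,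
        (gram (f x) (p x))⁻¹ i k * (gram (f x) (p x))⁻¹ j l *
          (inner ℝ (sff (f x) (p x) i j) (mcv (f x) (p x)) *
            inner ℝ (sff (f x) (p x) k l) (mcv (f x) (p x)))) :=
      continuous_finsetSum _ fun i _ => continuous_finsetSum _ fun j _ =>
        continuous_finsetSum _ fun k _ => continuous_finsetSum _ fun l _ =>
          ((hI' i k).mul (hI' j l)).mul (((hA i j).inner hH).mul ((hA k l).inner hH))
    exact this

end Mat

/-- CT0 -/
theorem hCT0 (hI3J : StI3J) (hI2J : StI2J) (hFR : StFR) : StCT0 := by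
  intro N M _ _ _ I F hF
  have hfro : ∀ t ∈ I, IsImmJ (n := 2) univ (fun q (_ : ℝ) => F q t) := by
    intro t ht
    refine ⟨isOpen_univ, ?_, ?_⟩
    · have h2 : ContMDiffOn ((𝓡 2).prod 𝓘(ℝ, ℝ)) ((𝓡 2).prod 𝓘(ℝ, ℝ)) ∞
          (fun z : M × ℝ => (z.1, t)) (univ ×ˢ univ) :=
        ContMDiffOn.prodMk contMDiff_fst.contMDiffOn contMDiffOn_const
      have h3 := hF.smooth.comp h2 (fun z _ => ⟨mem_univ _, ht⟩)
      exact h3
    · intro p s _
      exact hF.imm p t ht
  refine ⟨fun t ht => ⟨hfro t ht, fun q s => ⟨rfl, rfl, rfl, rfl, rfl⟩⟩, ?_⟩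
  intro hI
  have hc0 : CSTJ I F := hF.smooth.continuousOn
  -- the chart
  have key : ∀ p₀ : M,
      ContinuousOn (fun z : M × ℝ => HH (n := 2) F z.1 z.2)
        ((chartAt (EE 2) p₀).source ×ˢ I) ∧
      ContinuousOn (fun z : M × ℝ => AA (n := 2) F z.1 z.2)
        ((chartAt (EE 2) p₀).source ×ˢ I) ∧
      ContinuousOn (fun z : M × ℝ => ZF (n := 2) F z.1 z.2)
        ((chartAt (EE 2) p₀).source ×ˢ I) := by
    intro p₀
    set T : Set (EE 2) := (chartAt (EE 2) p₀).target with hTdef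
    have hTo : IsOpen T := (chartAt (EE 2) p₀).open_target
    set f : EE 2 × ℝ → EE N := fun z => F ((chartAt (EE 2) p₀).symm z.1) z.2 with hf
    have hsm : ContDiffOn ℝ ∞ f (T ×ˢ I) := by
      have h1 : ContMDiffOn (𝓡 2) (𝓡 2) ∞ (chartAt (EE 2) p₀).symm (chartAt (EE 2) p₀).target :=
        contMDiffOn_chart_symm
      have h2 : ContMDiffOn ((𝓡 2).prod 𝓘(ℝ, ℝ)) ((𝓡 2).prod 𝓘(ℝ, ℝ)) ∞
          (fun z : EE 2 × ℝ => ((chartAt (EE 2) p₀).symm z.1, z.2))
          ((chartAt (EE 2) p₀).target ×ˢ I) := by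
        refine ContMDiffOn.prodMk ?_ ?_
        · exact h1.comp contMDiff_fst.contMDiffOn (fun z hz => hz.1)
        · exact contMDiff_snd.contMDiffOn
      have h3 : ContMDiffOn ((𝓡 2).prod 𝓘(ℝ, ℝ)) 𝓘(ℝ, EE N) ∞ f
          ((chartAt (EE 2) p₀).target ×ˢ I) := by
        have := hF.smooth.comp h2 (fun z hz => ⟨mem_univ _, hz.2⟩)
        exact this
      rw [← contMDiffOn_iff_contDiffOn]
      rw [modelWithCornersSelf_prod, ← chartedSpaceSelf_prod]
      exact h3
    have hUD : UniqueDiffOn ℝ (T ×ˢ I) := hTo.uniqueDiffOn.prod hI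
    -- derivatives
    have hs1 : ∀ i : Fin 2, ContDiffOn ℝ ∞
        (fun z => fderivWithin ℝ f (T ×ˢ I) z (ee i, 0)) (T ×ˢ I) := fun i =>
      within_smooth hUD hsm (ee i, 0)
    have hs2 : ∀ i j : Fin 2, ContDiffOn ℝ ∞
        (fun z => fderivWithin ℝ (fun z => fderivWithin ℝ f (T ×ˢ I) z (ee j, 0))
          (T ×ˢ I) z (ee i, 0)) (T ×ˢ I) := fun i j =>
      within_smooth hUD (hs1 j) (ee i, 0)
    have he1 : ∀ z ∈ T ×ˢ I, ∀ i : Fin 2, dv1 (fun y => f (y, z.2)) z.1 i =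
        fderivWithin ℝ f (T ×ˢ I) z (ee i, 0) := by
      intro z hz i
      exact slice_fderiv hTo hsm hz.1 hz.2 (ee i)
    have he2 : ∀ z ∈ T ×ˢ I, ∀ i j : Fin 2, dv2 (fun y => f (y, z.2)) z.1 i j =
        fderivWithin ℝ (fun z => fderivWithin ℝ f (T ×ˢ I) z (ee j, 0))
          (T ×ˢ I) z (ee i, 0) := by
      intro z hz i j
      have h1 : (fun y' : EE 2 => fderiv ℝ (fun y => f (y, z.2)) y' (ee j)) =ᶠ[𝓝 z.1]
          (fun y' => (fun w : EE 2 × ℝ => fderivWithin ℝ f (T ×ˢ I) w (ee j, 0)) (y', z.2)) := by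
        filter_upwards [hTo.mem_nhds hz.1] with y' hy'
        exact slice_fderiv hTo hsm hy' hz.2 (ee j)
      have h2 : dv2 (fun y => f (y, z.2)) z.1 i j =
          fderiv ℝ (fun y' => (fun w : EE 2 × ℝ => fderivWithin ℝ f (T ×ˢ I) w (ee j, 0))
            (y', z.2)) z.1 (ee i) := by
        unfold dv2
        rw [h1.fderiv_eq]
      rw [h2]
      exact slice_fderiv hTo (hs1 j) hz.1 hz.2 (ee i)
    have hdet : ∀ z ∈ T ×ˢ I, (gram (fun y => f (y, z.2)) z.1).det ≠ 0 := by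
      intro z hz
      have hq : (chartAt (EE 2) p₀).symm z.1 ∈ (chartAt (EE 2) p₀).source :=
        (chartAt (EE 2) p₀).map_target hz.1
      have h1 := (hI3J 2 N M univ _ (hfro z.2 hz.2) p₀ ((chartAt (EE 2) p₀).symm z.1) 0
        (mem_univ _) hq).1
      rw [(chartAt (EE 2) p₀).right_inv hz.1] at h1
      exact (hFR 2 N _ _ h1).2.1.ne_zero
    have hgeo := cont_geo (X := ↥(T ×ˢ I)) (fun x => fun y => f (y, x.1.2)) (fun x => x.1.1)
      (fun i => by
        have h := continuousOn_iff_continuous_domRestrict.mp (hs1 i).continuousOn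
        refine h.congr fun x => ?_
        exact (he1 x.1 x.2 i).symm)
      (fun i j => by
        have h := continuousOn_iff_continuous_domRestrict.mp (hs2 i j).continuousOn
        refine h.congr fun x => ?_
        exact (he2 x.1 x.2 i j).symm)
      (fun x => hdet x.1 x.2)
    have hm : ContinuousOn (fun z : EE 2 × ℝ => mcv (fun y => f (y, z.2)) z.1) (T ×ˢ I) :=
      continuousOn_iff_continuous_domRestrict.mpr hgeo.1
    have hn : ContinuousOn (fun z : EE 2 × ℝ => nsq (fun y => f (y, z.2)) z.1) (T ×ˢ I) :=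
      continuousOn_iff_continuous_domRestrict.mpr hgeo.2.1
    have hz : ContinuousOn (fun z : EE 2 × ℝ => zsq (fun y => f (y, z.2)) z.1) (T ×ˢ I) :=
      continuousOn_iff_continuous_domRestrict.mpr hgeo.2.2
    have hg : ContinuousOn (fun z : M × ℝ => (chartAt (EE 2) p₀ z.1, z.2))
        ((chartAt (EE 2) p₀).source ×ˢ I) :=
      ((chartAt (EE 2) p₀).continuousOn.comp continuousOn_fst (fun z hz => hz.1)).prodMk
        continuousOn_snd
    have hmaps : MapsTo (fun z : M × ℝ => (chartAt (EE 2) p₀ z.1, z.2))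
        ((chartAt (EE 2) p₀).source ×ˢ I) (T ×ˢ I) := fun z hz =>
      ⟨(chartAt (EE 2) p₀).map_source hz.1, hz.2⟩
    have hI3 : ∀ z ∈ (chartAt (EE 2) p₀).source ×ˢ I, _ := fun z hz =>
      hI3J 2 N M univ _ (hfro z.2 hz.2) p₀ z.1 0 (mem_univ _) hz.1
    refine ⟨?_, ?_, ?_⟩
    · exact (hm.comp hg hmaps).congr fun z hz => (hI3 z hz).2.1
    · exact (hn.comp hg hmaps).congr fun z hz => (hI3 z hz).2.2.1
    · exact (hz.comp hg hmaps).congr fun z hz => (hI3 z hz).2.2.2.1
  have fin : ∀ {W : Type} [TopologicalSpace W] (g : M → ℝ → W),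
      (∀ p₀ : M, ContinuousOn (fun z : M × ℝ => g z.1 z.2)
        ((chartAt (EE 2) p₀).source ×ˢ I)) → CSTJ I g := by
    intro W _ g hg z hz
    have h1 := hg z.1 z ⟨mem_chart_source (EE 2) z.1, hz.2⟩
    refine h1.mono_of_mem_nhdsWithin ?_
    have h2 : ((chartAt (EE 2) z.1).source ×ˢ (univ : Set ℝ)) ∈ 𝓝 z :=
      ((chartAt (EE 2) z.1).open_source.prod isOpen_univ).mem_nhds
        ⟨mem_chart_source (EE 2) z.1, mem_univ _⟩
    have h3 := inter_mem_nhdsWithin ((univ : Set M) ×ˢ I) h2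
    refine mem_of_superset h3 ?_
    rintro w ⟨hw1, hw2⟩
    exact ⟨hw2.1, hw1.2⟩
  exact ⟨hc0, fin _ fun p₀ => (key p₀).1, fin _ fun p₀ => (key p₀).2.1,
    fin _ fun p₀ => (key p₀).2.2⟩

end Helper78.MS
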